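import Pool.Agent.Run7.h286.PL.JointLaw

/-!
# The local-global complex for zero-cycles on the quadratic twists of `n` curves over `k(t)`

Let `k` be a finite field of odd characteristic with `q` elements, and `K` the global field `k(t)`. Let `n ≥ 1`
and, for `i = 1, ..., n`, let `f_i` in `k[t][x]` be monic of degree `2 g_i + 1` in `x`, `g_i ≥ 1`, without a term
in `x ^ (2 g_i)`, the coefficient of `x ^ j` of degree at most `2 N_i (2 g_i + 1 - j)` in `t`, `N_i ≥ 1`,
such that the discriminants of the `f_i` are squarefree and pairwise coprime and the reductions of the
`f_i` at infinity are irreducible. For `D` in `k[t]`, squarefree and prime to the discriminants, let `C_i` be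
the smooth projective curve `D y ^ 2 = f_i(x)` over `K`, of genus `g_i`, and `J_i` its Jacobian.

Theorem. Fix `k`, the `f_i` and the leading coefficient of `D`, and let the degree of `D` tend to
infinity.
1. For every `D` the group `J_i(K)` has no points of order two, and for all `l` the Selmer group
   `Sel(J_i, 2 ^ l)` is finite with at most `2 ^ (l d_i)` elements, `2 ^ (d_i) = #Sel(J_i, 2)`; so the Tate
   module `T_2 Sha(J_i)` has rank at most `d_i`.
2. The vector `(d_1, ..., d_n)` has the limit law `α(d_1) ⋯ α(d_n)` (Poonen and Rains) with all means of
   functions of exponential growth; the mean of `d_i` is `1.2645...`.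
3. For at least `0.2097 ^ n` of all these `D` all the groups `Sel(J_i, 2 ^ l)` are zero, `J_i(K)` is
   uniquely divisible by two, and the 2-primary part of the Tate-Shafarevich group of `J_i` is zero, for all `i`.
4. If the characteristic is larger than `2 g + 1`, then for every nonzero `Δ` a positive proportion of
   all `f` of genus `g` and height `2 N`, `N` to infinity, is in the family with discriminant prime to `Δ`.

Consequences (not formalised). For a smooth projective curve `X` over `K` with Jacobian `J` and with zero-cycles of
degree one over all completions, the homology of the complex of the problem is a quotient of the Tate module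
of the Tate-Shafarevich group of `J` (Cassels, Tate, Saito, Colliot-Thélène); in particular the question has a
positive answer for `X` if this group is finite. By the theorems of Tate, Milne, Kato and Trihan it is finite if
its 2-primary part is finite. So by 3, for at least `0.2097 ^ n` of all these `D` in the natural ordering, over
a fixed finite field, the complex is exact for all the curves `C_1, ..., C_n`, and for all smooth projective
curves over `K` the Jacobian of which is, up to isogeny, a factor of a product of powers of `J_1, ..., J_n` (for
example for all the curves dominated by one of the `C_i`). By 1 and 2, for EVERY `D` the 2-primary part of the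
homology of the complex for `C_i` is generated by `d_i` elements, and the mean of this number is `1.2645...`, for
every genus.

The proof is project JPL (helper784: the joint law, with parts by helpers 56, 160, 303, 518, 704, 803,
908, 957; projects PRL (helper286) and TG (helper784)), and the bound for `Sel(J, 2 ^ l)` of helper886; see
`Results/MP_1d384c_nt/JointSelmerLaw.lean` and `Results/MP_40dc3c_ag/ModelsOfFibreProducts.lean` (helper908),
whose definitions are used in `Pool/Agent/Run7/h286/PL/JointLaw.lean`.
-/

set_option autoImplicit false
set_option linter.all false

namespace Pool.Agent.Results.MP_bd895b_nt.AllTwistsOfCurves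

open Polynomial
open Run7.h784.JPH (discriminant InFamily alpha)
open Run7.h286.JointLaw (Statement PositiveProportion)

/-- Let `k` be a finite field of odd characteristic with `q` elements, `K = k(t)`.
(I) Let `f_1, ..., f_n` be polynomials of the families of genus `g_i ≥ 1` and height `2 N_i`, `N_i ≥ 1`
(monic of degree `2 g_i + 1` over `k[t]` without next term, squarefree discriminant, irreducible
reduction at infinity) with pairwise coprime discriminants, and `u ≠ 0` in `k`. For `D` in `Twists`
(squarefree of degree `m` with leading coefficient `u`, prime to the discriminants) let `J_i` be the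
Jacobian of `D y ^ 2 = f_i(x)` over `K`. Then
(many) there are at least `c q ^ m` such `D`, `c > 0`;
(each) `J_i(K)` has no points of order two, `#Sel(J_i, 2) = 2 ^ (d_i)`, and `Sel(J_i, 2 ^ l)` has at most
`2 ^ (l d_i)` elements for all `l`;
(often) for all large `m` for at least `0.2097 ^ n` of the `D` all the groups `Sel(J_i, 2 ^ l)` are zero,
`J_i(K)` is uniquely divisible by two and the 2-primary part of the Tate-Shafarevich group of `J_i` is
zero, for all `i`;
(means) the average over the `D` of every function `φ` of exponential growth of `(d_1, ..., d_n)` tends to
its expectation for the product of the laws of Poonen and Rains;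
(law) in particular the proportion of the `D` with a given vector tends to `α(d_1) ⋯ α(d_n)`;
(average) the average of `d_1 + ... + d_n` tends to `n` times the expectation of the law.
(II) This expectation is `1.2645` up to `0.0001`.
(III) If the characteristic is larger than `2 g + 1`, `g ≥ 1` and `Δ ≠ 0`, a positive proportion of
all `f` of genus `g` and height `2 N` is in the family and has discriminant prime to `Δ`. -/
theorem result (k : Type) [Field k] [Finite k] (h2 : (2 : k) ≠ 0)
    (K : Type) [Field K] [Algebra k[X] K] [IsFractionRing k[X] K] :
    (∀ (n : ℕ), 1 ≤ n → ∀ (g N : Fin n → ℕ), (∀ i, 1 ≤ g i) → (∀ i, 1 ≤ N i) →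
      ∀ f : Fin n → k[X][X], (∀ i, InFamily (g i) (N i) (f i)) →
      (∀ i j, i ≠ j → IsCoprime (discriminant (g i) (f i)) (discriminant (g j) (f j))) →
      ∀ u : k, u ≠ 0 → Statement K g f u) ∧
    |∑' d : ℕ, (d : ℝ) * alpha d - 1.2645| < 0.0001 ∧
    ∀ g : ℕ, 1 ≤ g → ((2 * g + 1).factorial : k) ≠ 0 → ∀ Δ : k[X], Δ ≠ 0 →
      PositiveProportion g Δ :=
  Run7.h286.JointLaw.main k h2 K

end Pool.Agent.Results.MP_bd895b_nt.AllTwistsOfCurves
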