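import Mathlib
import Pool.Agent.Run7.h652.ZC.Main
import Pool.Agent.Run7.h652.ZC.Loc
import Pool.Agent.Run7.h652.LP.Glob
import Pool.Agent.Results.MP_b723a0_ag.PrimeToP

/-!
# Zero-cycles on projective varieties of large dimension over global and local fields

Let `V` be the projective variety defined by forms `f_j` of degrees `d_j ≥ 1` in `n + 1` variables
over a field `K`, where `n ≥ ∑ (d_j² + (d_j - 1)²)` (no smoothness is needed).

* If `K` is an algebraic extension of `F(t)`, where `F` is a finite field (for instance a global field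
of positive characteristic or one of its henselizations), then `V` has a zero-cycle of degree `1`, and
the zero-cycles of degree `0` are the sums of push-forwards of `φ(0) - φ(∞)` for morphisms `φ` from
the projective line over finite extensions of `K` to `V`.
* The same holds if `K` is an algebraic extension of `F((t))` (for instance a local field of positive
characteristic).
* The same holds up to powers of `p` if `K` is a finite extension of `ℚ_p`.

The definitions of zero-cycles, of their degrees, of push-forwards and of the group `RatEq` generated by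
the divisors `φ(0) - φ(∞)` are in `Pool.Agent.Run7.h652.ZC.Cycle`.

The proof: let `x`, `y` be two points of `V` over a finite extension `L` of `K`. We look for two
rational curves of a large degree `m = ℓ ^ k` of the form `x + z₁ t + … + z_m t^m` and
`y + z₁ t + … + z_m t^m`. They have the same point at infinity. For the first one we need
`∑ d_j m` equations, of the weights `1, …, d_j m`; on the second one, the last `m` coefficients
are the same as on the first one, so that we need only `∑ (d_j - 1) m` more equations. The theory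
of Tsen and Lang at the prime `ℓ` gives a solution over an extension of `L` of degree prime to `ℓ`.
-/

set_option autoImplicit false
set_option linter.style.haveILetI false

namespace Pool.Agent.Results.MP_bd895b_nt.LargeDimensionFunctionFields

open Pool.Agent.Run7.h652.ZC

theorem gd_glob {ℓ : ℕ} (hℓ : ℓ.Prime) {F K : Type} [Field F] [Finite F] [Field K]
    [Algebra (RatFunc F) K] [Algebra.IsAlgebraic (RatFunc F) K] : Gd ℓ K := by
  intro ι κ _ _ w e f hw he hf hlt
  obtain ⟨L, hL1, hL2, x, hx, hxf⟩ := Pool.Agent.Run7.h652.LP.glob (F := F) hℓ w e f hw he hf hlt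
  exact ⟨L, inferInstance, inferInstance, hL1, hL2, x, hx, hxf⟩

theorem gd_padic {ℓ p : ℕ} [Fact p.Prime] (hℓ : ℓ.Prime) (hp : ℓ ≠ p) {K : Type} [Field K]
    [Algebra ℚ_[p] K] [FiniteDimensional ℚ_[p] K] : Gd ℓ K := by
  intro ι κ _ _ w e f hw he hf hlt
  haveI : Fact ℓ.Prime := ⟨hℓ⟩
  obtain ⟨L, i1, i2, hfin, hdeg, x, hx, hx2⟩ :=
    Pool.Agent.Q49.TL.wp3 Pool.Agent.Results.MP_b723a0_ag.PrimeToP.s_wit
      Pool.Agent.Results.MP_b723a0_ag.PrimeToP.s_grb Pool.Agent.Q216.TL.unr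
      Pool.Agent.Q225.TL.dsc p ℓ hp.symm K ι κ w e f hw he hf hlt
  exact ⟨L, i1, i2, hfin, hdeg, x, hx, hx2⟩

theorem phi_le {ℓ : ℕ} {d : ℕ} (hd : 0 < d) : phi ℓ d ≤ d ^ 2 := by
  unfold phi
  rw [pow_two]
  exact Nat.mul_le_mul_left _ (Nat.le_of_dvd hd (Nat.ordProj_dvd d ℓ))

section

variable {K Ω ι κ : Type} [Field K] [Field Ω] [Algebra K Ω] [IsAlgClosed Ω]
  [Algebra.IsAlgebraic K Ω] [Fintype ι] [Fintype κ] {f : κ → MvPolynomial ι K} {d : κ → ℕ}

/-- The result at a prime. -/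
theorem main_prime {ℓ : ℕ} (hℓ : ℓ.Prime) (hG0 : Gd ℓ K)
    (hG : ∀ L : IntermediateField K Ω, FiniteDimensional K L → Gd ℓ L)
    (hd : ∀ j, 0 < d j) (hlt : ∑ j, (d j ^ 2 + (d j - 1) ^ 2) < Fintype.card ι)
    (hf : ∀ j, (f j).IsHomogeneous (d j)) :
    (∃ (z : Cyc Ω f) (n : ℕ), deg z = n ∧ ¬ ℓ ∣ n) ∧
      ∀ z : Cyc Ω f, deg z = 0 → ∃ M : ℕ, ¬ ℓ ∣ M ∧ M • z ∈ RatEq Ω f := by
  have h0 : ∑ j, phi ℓ (d j) < Fintype.card ι := by
    refine lt_of_le_of_lt (Finset.sum_le_sum fun j _ => ?_) hlt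
    exact (phi_le (hd j)).trans (Nat.le_add_right _ _)
  refine ⟨degree_prime (Ω := Ω) hf hd hG0 h0, fun z hz => ?_⟩
  obtain ⟨m, _, hm⟩ := exists_degree hℓ d _ hlt
  exact degree_zero hℓ hf hd hG hG0 h0 hm z hz

omit [IsAlgClosed Ω] [Algebra.IsAlgebraic K Ω] [Fintype ι] [Fintype κ] in
theorem deg_rat (z : Cyc Ω f) (hz : z ∈ RatEq Ω f) : deg z = 0 := by
  have h1 : RatEq Ω f ≤ (deg : Cyc Ω f →+ ℤ).ker := by
    unfold RatEq
    rw [AddSubgroup.closure_le]
    rintro _ ⟨L, γ, r, x, y, hfin, hγ, hr, hx, hy, rfl⟩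
    show deg (push L x - push L y) = 0
    rw [map_sub, deg_push (fun i => by rw [hx i]; exact SetLike.coe_mem _),
      deg_push (fun i => by rw [hy i]; exact SetLike.coe_mem _), sub_self]
  exact h1 hz

/-- The result for all the primes. -/
theorem main (hG : ∀ ℓ : ℕ, ℓ.Prime → Gd ℓ K ∧
      ∀ L : IntermediateField K Ω, FiniteDimensional K L → Gd ℓ L)
    (hd : ∀ j, 0 < d j) (hlt : ∑ j, (d j ^ 2 + (d j - 1) ^ 2) < Fintype.card ι)
    (hf : ∀ j, (f j).IsHomogeneous (d j)) :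
    (∃ z : Cyc Ω f, deg z = 1) ∧ ∀ z : Cyc Ω f, z ∈ RatEq Ω f ↔ deg z = 0 := by
  constructor
  · have h1 : (1 : ℤ) ∈ (deg : Cyc Ω f →+ ℤ).range := by
      apply mem_of_primes
      intro ℓ hℓ
      obtain ⟨z, n, hz, hn⟩ := (main_prime (Ω := Ω) hℓ (hG ℓ hℓ).1 (hG ℓ hℓ).2 hd hlt hf).1
      exact ⟨n, hn, z, by rw [hz]; simp⟩
    exact h1
  · refine fun z => ⟨deg_rat z, fun hz => ?_⟩
    apply mem_of_primes
    intro ℓ hℓ
    exact (main_prime (Ω := Ω) hℓ (hG ℓ hℓ).1 (hG ℓ hℓ).2 hd hlt hf).2 z hz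

end

/-- a subgroup which contains a multiple prime to `ℓ` for all `ℓ ≠ p` -/
theorem mem_of_primes_ne {A : Type} [AddCommGroup A] (H : AddSubgroup A) (a : A) {p : ℕ}
    (h : ∀ ℓ : ℕ, ℓ.Prime → ℓ ≠ p → ∃ M : ℕ, ¬ ℓ ∣ M ∧ M • a ∈ H) :
    ∃ k : ℕ, p ^ k • a ∈ H := by
  let I : AddSubgroup ℤ := H.comap (zmultiplesHom A a)
  have hI : ∀ n : ℤ, n ∈ I ↔ n • a ∈ H := fun n => Iff.rfl
  obtain ⟨g, hg⟩ := Int.subgroup_cyclic I
  have hmem : ∀ n : ℤ, n ∈ I ↔ g.natAbs ∣ n.natAbs := by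
    intro n
    rw [hg, ← AddSubgroup.zmultiples_eq_closure, Int.mem_zmultiples_iff, Int.natAbs_dvd_natAbs]
  have h1 : ∀ ℓ : ℕ, ℓ.Prime → ℓ ∣ g.natAbs → ℓ = p := by
    intro ℓ hℓ hl
    by_contra hne
    obtain ⟨M, hM, hM2⟩ := h ℓ hℓ hne
    have h3 : (M : ℤ) ∈ I := by
      rw [hI, natCast_zsmul]
      exact hM2
    rw [hmem, Int.natAbs_natCast] at h3
    exact hM (hl.trans h3)
  have h0 : g.natAbs ≠ 0 := by
    intro h0
    have h2 := h1 2 Nat.prime_two (by rw [h0]; exact dvd_zero _)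
    have h3 := h1 3 Nat.prime_three (by rw [h0]; exact dvd_zero _)
    omega
  have h2 : g.natAbs = p ^ g.natAbs.primeFactorsList.length :=
    Nat.eq_prime_pow_of_unique_prime_dvd h0 fun {d} hd hd2 => h1 d hd hd2
  refine ⟨g.natAbs.primeFactorsList.length, ?_⟩
  have h3 : ((p ^ g.natAbs.primeFactorsList.length : ℕ) : ℤ) ∈ I := by
    rw [hmem, Int.natAbs_natCast, ← h2]
  rw [hI, natCast_zsmul] at h3
  exact h3

/-- On the projective variety `f = 0` there is a zero-cycle of degree `1`, and the zero-cycles of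
degree `0` are exactly those in the group `RatEq`. -/
def DegreeIso {K ι κ : Type} [Field K] (f : κ → MvPolynomial ι K) : Prop :=
  (∃ z : Cyc (AlgebraicClosure K) f, deg z = 1) ∧
    ∀ z : Cyc (AlgebraicClosure K) f, z ∈ RatEq (AlgebraicClosure K) f ↔ deg z = 0

/-- The same up to powers of `p`. -/
def DegreeIsoUpTo (p : ℕ) {K ι κ : Type} [Field K] (f : κ → MvPolynomial ι K) : Prop :=
  (∃ (z : Cyc (AlgebraicClosure K) f) (k : ℕ), deg z = (p : ℤ) ^ k) ∧
    ∀ z : Cyc (AlgebraicClosure K) f,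
      (∃ k : ℕ, p ^ k • z ∈ RatEq (AlgebraicClosure K) f) ↔ deg z = 0

/-- **Zero-cycles on projective varieties of large dimension over global and local fields.** -/
theorem result {ι κ : Type} [Fintype ι] [Fintype κ] (d : κ → ℕ) (hd : ∀ j, 0 < d j)
    (hlt : ∑ j, (d j ^ 2 + (d j - 1) ^ 2) < Fintype.card ι) :
    (∀ (F K : Type) [Field F] [Finite F] [Field K] [Algebra (RatFunc F) K]
      [Algebra.IsAlgebraic (RatFunc F) K] (f : κ → MvPolynomial ι K),
      (∀ j, (f j).IsHomogeneous (d j)) → DegreeIso f) ∧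
    (∀ (F K : Type) [Field F] [Finite F] [Field K] [Algebra (LaurentSeries F) K]
      [Algebra.IsAlgebraic (LaurentSeries F) K] (f : κ → MvPolynomial ι K),
      (∀ j, (f j).IsHomogeneous (d j)) → DegreeIso f) ∧
    (∀ (p : ℕ) [Fact p.Prime] (K : Type) [Field K] [Algebra ℚ_[p] K] [FiniteDimensional ℚ_[p] K]
      (f : κ → MvPolynomial ι K), (∀ j, (f j).IsHomogeneous (d j)) → DegreeIsoUpTo p f) := by
  refine ⟨?_, ?_, ?_⟩
  · intro F K _ _ _ _ _ f hf
    refine main (fun ℓ hℓ => ⟨gd_glob (F := F) hℓ, fun L _ => ?_⟩) hd hlt hf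
    letI : Algebra (RatFunc F) L := ((algebraMap K L).comp (algebraMap (RatFunc F) K)).toAlgebra
    haveI : IsScalarTower (RatFunc F) K L := IsScalarTower.of_algebraMap_eq fun x => rfl
    haveI : Algebra.IsAlgebraic (RatFunc F) L := Algebra.IsAlgebraic.trans (RatFunc F) K L
    exact gd_glob (F := F) hℓ
  · intro F K _ _ _ _ _ f hf
    refine main (fun ℓ hℓ => ⟨gd_loc (F := F) hℓ, fun L _ => ?_⟩) hd hlt hf
    letI : Algebra (LaurentSeries F) L :=
      ((algebraMap K L).comp (algebraMap (LaurentSeries F) K)).toAlgebra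
    haveI : IsScalarTower (LaurentSeries F) K L := IsScalarTower.of_algebraMap_eq fun x => rfl
    haveI : Algebra.IsAlgebraic (LaurentSeries F) L :=
      Algebra.IsAlgebraic.trans (LaurentSeries F) K L
    exact gd_loc (F := F) hℓ
  · intro p _ K _ _ _ f hf
    have hp : p.Prime := Fact.out
    have hG : ∀ (ℓ : ℕ), ℓ ≠ p → ℓ.Prime →
        ∀ L : IntermediateField K (AlgebraicClosure K), FiniteDimensional K L → Gd ℓ L := by
      intro ℓ hne hℓ L _
      letI a : Algebra ℚ_[p] L := ((algebraMap K L).comp (algebraMap ℚ_[p] K)).toAlgebra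
      have t : @IsScalarTower ℚ_[p] K L _ _ a.toSMul :=
        @IsScalarTower.of_algebraMap_eq ℚ_[p] K L _ _ _ _ _ a fun x => rfl
      have h : @Module.Finite ℚ_[p] L _ _ a.toModule :=
        @Module.Finite.trans ℚ_[p] K L _ _ _ _ a.toModule _ t _ _
      exact @gd_padic ℓ p _ hℓ hne L _ a h
    have hM : ∀ (ℓ : ℕ) (hne : ℓ ≠ p) (hℓ : ℓ.Prime), _ := fun ℓ hne hℓ =>
      main_prime (Ω := AlgebraicClosure K) hℓ (gd_padic hℓ hne) (hG ℓ hne hℓ) hd hlt hf
    constructor
    · obtain ⟨k, z, hz⟩ := mem_of_primes_ne (deg : Cyc (AlgebraicClosure K) f →+ ℤ).range 1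
        fun ℓ hℓ hne => by
          obtain ⟨z, n, hz, hn⟩ := (hM ℓ hne hℓ).1
          exact ⟨n, hn, z, by rw [hz]; simp⟩
      refine ⟨z, k, ?_⟩
      rw [hz]
      simp
    · intro z
      constructor
      · rintro ⟨k, hk⟩
        have h1 := deg_rat _ hk
        rw [map_nsmul, smul_eq_zero] at h1
        exact h1.resolve_left (pow_ne_zero k hp.ne_zero)
      · intro hz
        exact mem_of_primes_ne _ z fun ℓ hℓ hne => (hM ℓ hne hℓ).2 z hz

end Pool.Agent.Results.MP_bd895b_nt.LargeDimensionFunctionFields
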