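import Mathlib
import Pool.Agent.Run7.h652.FB.Comb
import Pool.Agent.Results.MP_bd895b_nt.LargeDimensionFunctionFields

/-!
# Zero-cycles on families of low degree over an arbitrary base, over global and local fields

Let `W` be an arbitrary projective variety over a field `K`, given by homogeneous equations `g_k = 0` in
the variables `τ`. Let `V ⊂ ℙ^n × W` be given by equations `f_j(x, w) = 0` which are homogeneous of
degree `a_j ≥ 1` in `x` and homogeneous (of any degree) in `w`, where `x` has `n + 1` coordinates.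
Assume that `n ≥ ∑ a_j³`. There is no assumption of smoothness or flatness, and `W` is any projective
variety: a curve of any genus, a surface, ….

* If `K` is an algebraic extension of `F(t)` or `F((t))`, where `F` is a finite field (for instance a
global or local field of positive characteristic), then the push-forward `CH_0(V) → CH_0(W)` of the
Chow groups of zero-cycles is an isomorphism.
* If `K` is a finite extension of `ℚ_p`, the push-forward `CH_0(V)[1/p] → CH_0(W)[1/p]` is an
isomorphism.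

The definitions are in `Pool.Agent.Run7.h652.FB.Defs` and `Pool.Agent.Run7.h652.ZC.Cycle`.

The proof is made for one prime `ℓ` at a time. Two points of the same fibre over a finite extension are
joined by two rational curves of degree `ℓ ^ k` with a common end point (as in the case of a base which
is a point). The lifting of the rational equivalences on `W` uses the theory of Tsen and Lang at the
prime `ℓ` in the dimension `3`, over the maximal prime to `ℓ` extensions of the function fields of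
curves over `K`, and the specialisation of norm forms.
-/

set_option autoImplicit false
set_option linter.style.haveILetI false

namespace Pool.Agent.Results.MP_bd895b_nt.FibrationTheorem

open MvPolynomial
open Pool.Agent.Run7.h652.ZC (Cyc Gd gd_loc)
open Pool.Agent.Run7.h652.FB
open Pool.Agent.Results.MP_bd895b_nt.LargeDimensionFunctionFields (gd_glob gd_padic
  mem_of_primes_ne)

section

variable {K Ω ι τ κ μ : Type} [Field K] [Field Ω] [Algebra K Ω]
  {f : κ → MvPolynomial (ι ⊕ τ) K} {g : μ → MvPolynomial τ K}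

theorem main [Infinite K] [IsAlgClosed Ω] [Algebra.IsAlgebraic K Ω]
    [Fintype ι] [Fintype τ] [Fintype κ] (hG : ∀ ℓ : ℕ, ℓ.Prime → GG ℓ K) {a : κ → ℕ}
    (ha : ∀ j, 0 < a j) (hlt : ∑ j, a j ^ 3 < Fintype.card ι)
    (hf : ∀ j, ∃ b, BiHom (f j) (a j) b) (hg : ∀ k, ∃ d, (g k).IsHomogeneous d) :
    (∀ y : Cyc Ω g, ∃ z : Cyc₂ Ω f g, proj z = y) ∧
      ∀ z : Cyc₂ Ω f g, z ∈ RatV Ω f g ↔ proj z ∈ RatW Ω g := by
  choose b hb using hf
  refine ⟨fun y => ?_, fun z => ⟨proj_rat (fun j => ⟨a j, b j, hb j⟩) hg z, fun hz => ?_⟩⟩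
  · have h1 : y ∈ (proj : Cyc₂ Ω f g →+ Cyc Ω g).range := by
      apply Pool.Agent.Run7.h652.ZC.mem_of_primes
      intro ℓ hℓ
      exact (main_prime hℓ (hG ℓ hℓ) ha hb hg hlt).1 y
    exact h1
  · apply Pool.Agent.Run7.h652.ZC.mem_of_primes
    intro ℓ hℓ
    exact (main_prime hℓ (hG ℓ hℓ) ha hb hg hlt).2 z hz

theorem main_ne {p : ℕ} [Infinite K] [IsAlgClosed Ω] [Algebra.IsAlgebraic K Ω]
    [Fintype ι] [Fintype τ] [Fintype κ] (hG : ∀ ℓ : ℕ, ℓ.Prime → ℓ ≠ p → GG ℓ K) {a : κ → ℕ}
    (ha : ∀ j, 0 < a j) (hlt : ∑ j, a j ^ 3 < Fintype.card ι)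
    (hf : ∀ j, ∃ b, BiHom (f j) (a j) b) (hg : ∀ k, ∃ d, (g k).IsHomogeneous d) :
    (∀ y : Cyc Ω g, ∃ (k : ℕ) (z : Cyc₂ Ω f g), proj z = p ^ k • y) ∧
      ∀ z : Cyc₂ Ω f g, (∃ k : ℕ, p ^ k • z ∈ RatV Ω f g) ↔ ∃ k : ℕ, p ^ k • proj z ∈ RatW Ω g := by
  choose b hb using hf
  refine ⟨fun y => ?_, fun z => ⟨?_, ?_⟩⟩
  · obtain ⟨k, z, hz⟩ := mem_of_primes_ne (p := p) (proj : Cyc₂ Ω f g →+ Cyc Ω g).range y
      fun ℓ hℓ hne => (main_prime hℓ (hG ℓ hℓ hne) ha hb hg hlt).1 y
    exact ⟨k, z, hz⟩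
  · rintro ⟨k, hk⟩
    refine ⟨k, ?_⟩
    rw [← map_nsmul]
    exact proj_rat (fun j => ⟨a j, b j, hb j⟩) hg _ hk
  · rintro ⟨k, hk⟩
    rw [← map_nsmul] at hk
    obtain ⟨n, hn⟩ := mem_of_primes_ne (p := p) (RatV Ω f g) (p ^ k • z)
      fun ℓ hℓ hne => (main_prime hℓ (hG ℓ hℓ hne) ha hb hg hlt).2 _ hk
    refine ⟨n + k, ?_⟩
    rwa [pow_add, mul_smul]

end

/-- The push-forward `CH_0(V) → CH_0(W)` is an isomorphism: it is surjective on zero-cycles, and a
zero-cycle on `V` is rationally equivalent to zero if and only if its push-forward is. -/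
def ChowIso {K ι τ κ μ : Type} [Field K] [Fintype ι] [Fintype τ]
    (f : κ → MvPolynomial (ι ⊕ τ) K) (g : μ → MvPolynomial τ K) : Prop :=
  (∀ y : Cyc (AlgebraicClosure K) g, ∃ z : Cyc₂ (AlgebraicClosure K) f g, proj z = y) ∧
    ∀ z : Cyc₂ (AlgebraicClosure K) f g,
      z ∈ RatV (AlgebraicClosure K) f g ↔ proj z ∈ RatW (AlgebraicClosure K) g

/-- The same up to powers of `p`. -/
def ChowIsoUpTo (p : ℕ) {K ι τ κ μ : Type} [Field K] [Fintype ι] [Fintype τ]
    (f : κ → MvPolynomial (ι ⊕ τ) K) (g : μ → MvPolynomial τ K) : Prop :=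
  (∀ y : Cyc (AlgebraicClosure K) g, ∃ (k : ℕ) (z : Cyc₂ (AlgebraicClosure K) f g),
      proj z = p ^ k • y) ∧
    ∀ z : Cyc₂ (AlgebraicClosure K) f g,
      (∃ k : ℕ, p ^ k • z ∈ RatV (AlgebraicClosure K) f g) ↔
        ∃ k : ℕ, p ^ k • proj z ∈ RatW (AlgebraicClosure K) g

/-- **Zero-cycles on families of low degree over an arbitrary base.** -/
theorem result {ι τ κ μ : Type} [Fintype ι] [Fintype τ] [Fintype κ] (a : κ → ℕ)
    (ha : ∀ j, 0 < a j) (hlt : ∑ j, a j ^ 3 < Fintype.card ι) :
    (∀ (F K : Type) [Field F] [Finite F] [Field K] [Algebra (RatFunc F) K]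
      [Algebra.IsAlgebraic (RatFunc F) K] (f : κ → MvPolynomial (ι ⊕ τ) K)
      (g : μ → MvPolynomial τ K), (∀ j, ∃ b, BiHom (f j) (a j) b) →
      (∀ k, ∃ d, (g k).IsHomogeneous d) → ChowIso f g) ∧
    (∀ (F K : Type) [Field F] [Finite F] [Field K] [Algebra (LaurentSeries F) K]
      [Algebra.IsAlgebraic (LaurentSeries F) K] (f : κ → MvPolynomial (ι ⊕ τ) K)
      (g : μ → MvPolynomial τ K), (∀ j, ∃ b, BiHom (f j) (a j) b) →
      (∀ k, ∃ d, (g k).IsHomogeneous d) → ChowIso f g) ∧
    (∀ (p : ℕ) [Fact p.Prime] (K : Type) [Field K] [Algebra ℚ_[p] K] [FiniteDimensional ℚ_[p] K]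
      (f : κ → MvPolynomial (ι ⊕ τ) K) (g : μ → MvPolynomial τ K),
      (∀ j, ∃ b, BiHom (f j) (a j) b) → (∀ k, ∃ d, (g k).IsHomogeneous d) →
      ChowIsoUpTo p f g) := by
  refine ⟨?_, ?_, ?_⟩
  · intro F K _ _ _ _ _ f g hf hg
    haveI : Infinite (RatFunc F) :=
      Infinite.of_injective _ (IsFractionRing.injective (Polynomial F) (RatFunc F))
    haveI : Infinite K := Infinite.of_injective _ (algebraMap (RatFunc F) K).injective
    refine main (fun ℓ hℓ => fun L _ _ _ => ?_) ha hlt hf hg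
    letI : Algebra (RatFunc F) L := ((algebraMap K L).comp (algebraMap (RatFunc F) K)).toAlgebra
    haveI : IsScalarTower (RatFunc F) K L := IsScalarTower.of_algebraMap_eq fun x => rfl
    haveI : Algebra.IsAlgebraic (RatFunc F) L := Algebra.IsAlgebraic.trans (RatFunc F) K L
    exact gd_glob (F := F) hℓ
  · intro F K _ _ _ _ _ f g hf hg
    haveI : Infinite (LaurentSeries F) := by
      refine Infinite.of_injective (fun n : ℕ => (HahnSeries.single (n : ℤ) (1 : F) :
        LaurentSeries F)) fun m n h => ?_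
      have h1 := congrArg (fun z : LaurentSeries F => z.coeff (m : ℤ)) h
      simp only [HahnSeries.coeff_single_same] at h1
      by_contra hne
      rw [HahnSeries.coeff_single_of_ne (by exact_mod_cast hne)] at h1
      exact one_ne_zero h1
    haveI : Infinite K := Infinite.of_injective _ (algebraMap (LaurentSeries F) K).injective
    refine main (fun ℓ hℓ => fun L _ _ _ => ?_) ha hlt hf hg
    letI : Algebra (LaurentSeries F) L :=
      ((algebraMap K L).comp (algebraMap (LaurentSeries F) K)).toAlgebra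
    haveI : IsScalarTower (LaurentSeries F) K L := IsScalarTower.of_algebraMap_eq fun x => rfl
    haveI : Algebra.IsAlgebraic (LaurentSeries F) L :=
      Algebra.IsAlgebraic.trans (LaurentSeries F) K L
    exact gd_loc (F := F) hℓ
  · intro p _ K _ _ _ f g hf hg
    haveI : CharZero K := charZero_of_injective_algebraMap (algebraMap ℚ_[p] K).injective
    haveI : Infinite K := Infinite.of_injective _ (Nat.cast_injective (R := K))
    refine main_ne (fun ℓ hℓ hne => ?_) ha hlt hf hg
    intro L _ _ _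
    letI a : Algebra ℚ_[p] L := ((algebraMap K L).comp (algebraMap ℚ_[p] K)).toAlgebra
    have t : @IsScalarTower ℚ_[p] K L _ _ a.toSMul :=
      @IsScalarTower.of_algebraMap_eq ℚ_[p] K L _ _ _ _ _ a fun x => rfl
    have h : @Module.Finite ℚ_[p] L _ _ a.toModule :=
      @Module.Finite.trans ℚ_[p] K L _ _ _ _ a.toModule _ t _ _
    exact @gd_padic ℓ p _ hℓ hne L _ a h

end Pool.Agent.Results.MP_bd895b_nt.FibrationTheorem
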